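import Mathlib
import Pool.Agent.R746.DR.Main

/-! # Disjoint rank versus essential rank of matrices: `drk A ≥ erk A / 2` -/

set_option autoImplicit false

namespace Pool.Agent.Results.MP_852b03_co.DisjointRank

open Module

variable {F : Type*} [Field F] {Q₁ Q₂ : Finset ℕ}

/-- The essential rank of `A : Q₁ × Q₂ → F`: the minimum of the ranks of the matrices `A + V`, where
`V` is supported on the diagonal positions `(x, x)`, `x ∈ Q₁ ∩ Q₂`. -/
noncomputable def erk (A : Matrix Q₁ Q₂ F) : ℕ :=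
  sInf {r | ∃ V : Matrix Q₁ Q₂ F, (∀ (i : Q₁) (j : Q₂), (i : ℕ) ≠ (j : ℕ) → V i j = 0) ∧ (A + V).rank = r}

/-- the restriction `A(X₁ × X₂)` -/
def restr (A : Matrix Q₁ Q₂ F) (X₁ X₂ : Finset ℕ) (h₁ : X₁ ⊆ Q₁) (h₂ : X₂ ⊆ Q₂) :
    Matrix X₁ X₂ F :=
  A.submatrix (fun i => ⟨i, h₁ i.2⟩) (fun j => ⟨j, h₂ j.2⟩)

/-- The disjoint rank of `A`: the maximum of the ranks of the restrictions `A(X₁ × X₂)` to disjoint
sets `X₁ ⊆ Q₁`, `X₂ ⊆ Q₂`. -/
noncomputable def drk (A : Matrix Q₁ Q₂ F) : ℕ :=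
  sSup {r | ∃ (X₁ X₂ : Finset ℕ) (h₁ : X₁ ⊆ Q₁) (h₂ : X₂ ⊆ Q₂),
    Disjoint X₁ X₂ ∧ (restr A X₁ X₂ h₁ h₂).rank = r}

theorem bdd (A : Matrix Q₁ Q₂ F) : BddAbove {r | ∃ (X₁ X₂ : Finset ℕ) (h₁ : X₁ ⊆ Q₁)
    (h₂ : X₂ ⊆ Q₂), Disjoint X₁ X₂ ∧ (restr A X₁ X₂ h₁ h₂).rank = r} := by
  refine ⟨A.rank, ?_⟩
  rintro _ ⟨X₁, X₂, h₁, h₂, -, rfl⟩
  exact A.rank_submatrix_le _ _

/-- the minimum in the definition of `erk` is attained -/
theorem erk_spec (A : Matrix Q₁ Q₂ F) :
    ∃ V : Matrix Q₁ Q₂ F, (∀ (i : Q₁) (j : Q₂), (i : ℕ) ≠ (j : ℕ) → V i j = 0) ∧ (A + V).rank = erk A :=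
  Nat.sInf_mem (s := {r | ∃ V : Matrix Q₁ Q₂ F, (∀ (i : Q₁) (j : Q₂), (i : ℕ) ≠ (j : ℕ) → V i j = 0) ∧
    (A + V).rank = r}) ⟨_, 0, fun _ _ _ => rfl, rfl⟩

/-- the maximum in the definition of `drk` is attained -/
theorem drk_spec (A : Matrix Q₁ Q₂ F) : ∃ (X₁ X₂ : Finset ℕ) (h₁ : X₁ ⊆ Q₁) (h₂ : X₂ ⊆ Q₂),
    Disjoint X₁ X₂ ∧ (restr A X₁ X₂ h₁ h₂).rank = drk A :=
  Nat.sSup_mem (s := {r | ∃ (X₁ X₂ : Finset ℕ) (h₁ : X₁ ⊆ Q₁) (h₂ : X₂ ⊆ Q₂),
    Disjoint X₁ X₂ ∧ (restr A X₁ X₂ h₁ h₂).rank = r}) ⟨_, ∅, ∅, Finset.empty_subset _,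
      Finset.empty_subset _, Finset.disjoint_empty_left _, rfl⟩ (bdd A)

theorem erk_le (A : Matrix Q₁ Q₂ F) : erk A ≤ 2 * drk A := by
  classical
  let ι : Type := ↥(Q₁ ∪ Q₂)
  let b : ι → (ι → F) := fun i => Pi.single i 1
  let c : ι → (ι → F) := fun i k =>
    if h : (k : ℕ) ∈ Q₁ ∧ (i : ℕ) ∈ Q₂ then A ⟨k, h.1⟩ ⟨i, h.2⟩ else 0
  have hb : LinearIndependent F b := Pi.linearIndependent_single_one ι F
  obtain ⟨t, ht⟩ := Pool.Agent.R746.DR.main b c hb (drk A) (by
    intro J hJ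
    -- independence
    let f : J ⊕ J → (ι → F) := Sum.elim (fun i => b i) (fun i => c i)
    have hspan : Submodule.span F (Set.range f) = Pool.Agent.R746.DR.V b c J := by
      apply le_antisymm
      · rw [Submodule.span_le]
        have h1 : ∀ i : J, Pool.Agent.R746.DR.L F (b i, c i) ≤ Pool.Agent.R746.DR.V b c J :=
          fun i => Finset.le_sup (f := fun i => Pool.Agent.R746.DR.L F (b i, c i)) i.2
        rintro _ ⟨i | i, rfl⟩
        · exact h1 i (Pool.Agent.R746.DR.fst_mem (b i, c i))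
        · exact h1 i (Pool.Agent.R746.DR.snd_mem (b i, c i))
      · refine Finset.sup_le fun i hi => ?_
        rw [Pool.Agent.R746.DR.L_le]
        exact ⟨Submodule.subset_span ⟨Sum.inl ⟨i, hi⟩, rfl⟩,
          Submodule.subset_span ⟨Sum.inr ⟨i, hi⟩, rfl⟩⟩
    have hli : LinearIndependent F f := by
      rw [linearIndependent_iff_card_eq_finrank_span]
      rw [Set.finrank, hspan, hJ, Fintype.card_sum, Fintype.card_coe]
      ring
    rw [Fintype.linearIndependent_iff] at hli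
    have hJQ : ∀ i : J, ((i : ι) : ℕ) ∈ Q₂ := by
      intro i
      by_contra hi
      have h1 := hli (Sum.elim (fun _ => 0) (Pi.single i 1)) (by
        rw [Fintype.sum_sum_type]
        simp only [Sum.elim_inl, zero_smul, Finset.sum_const_zero, zero_add, Sum.elim_inr, f]
        refine Finset.sum_eq_zero fun j _ => ?_
        by_cases hji : j = i
        · rw [hji, Pi.single_eq_same, one_smul]
          funext k
          show (if h : (k : ℕ) ∈ Q₁ ∧ ((i : ι) : ℕ) ∈ Q₂ then A ⟨k, h.1⟩ ⟨i, h.2⟩ else 0) = 0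
          rw [dif_neg fun h => hi h.2]
        · rw [Pi.single_eq_of_ne hji, zero_smul]) (Sum.inr i)
      rw [Sum.elim_inr, Pi.single_eq_same] at h1
      exact one_ne_zero h1
    set X₂ : Finset ℕ := J.image (fun i : ι => (i : ℕ)) with hX₂
    have hX₂Q : X₂ ⊆ Q₂ := by
      intro x hx
      obtain ⟨i, hi, rfl⟩ := Finset.mem_image.1 hx
      exact hJQ ⟨i, hi⟩
    have hmem : ∀ i : ι, (i : ℕ) ∈ X₂ → i ∈ J := by
      intro i hi
      obtain ⟨j, hj, hji⟩ := Finset.mem_image.1 hi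
      have : j = i := Subtype.ext hji
      exact this ▸ hj
    set X₁ : Finset ℕ := Q₁ \ X₂ with hX₁
    have hX₁Q : X₁ ⊆ Q₁ := Finset.sdiff_subset
    have hdisj : Disjoint X₁ X₂ := Finset.sdiff_disjoint
    have h1 : (restr A X₁ X₂ hX₁Q hX₂Q).rank ≤ drk A :=
      le_csSup (bdd A) ⟨X₁, X₂, hX₁Q, hX₂Q, hdisj, rfl⟩
    refine le_trans ?_ h1
    let w : J → (X₁ → F) := fun i =>
      (restr A X₁ X₂ hX₁Q hX₂Q).col ⟨(i : ι), Finset.mem_image_of_mem (fun i : ι => (i : ℕ)) i.2⟩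
    have hw : LinearIndependent F w := by
      rw [Fintype.linearIndependent_iff]
      intro μ hμ
      set C : ι → F := ∑ j : J, μ j • c j with hC
      have h2 := hli (Sum.elim (fun i => -C i) μ) (by
        rw [Fintype.sum_sum_type]
        simp only [Sum.elim_inl, Sum.elim_inr, f]
        rw [← hC]
        funext k
        rw [Pi.add_apply, Finset.sum_apply, Pi.zero_apply]
        by_cases hk : k ∈ J
        · rw [Finset.sum_eq_single (⟨k, hk⟩ : J)]
          · show -C k * (Pi.single k (1 : F) : ι → F) k + C k = 0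
            rw [Pi.single_eq_same, mul_one, neg_add_cancel]
          · intro j _ hj
            show -C j * (Pi.single (j : ι) (1 : F) : ι → F) k = 0
            rw [Pi.single_eq_of_ne, mul_zero]
            intro h3
            exact hj (Subtype.ext h3.symm)
          · intro h3
            exact absurd (Finset.mem_univ _) h3
        · rw [Finset.sum_eq_zero, zero_add]
          · by_cases hkQ : (k : ℕ) ∈ Q₁
            · have hkX : (k : ℕ) ∈ X₁ := Finset.mem_sdiff.2 ⟨hkQ, fun h3 => hk (hmem k h3)⟩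
              have h3 := congrFun hμ ⟨k, hkX⟩
              rw [Finset.sum_apply, Pi.zero_apply] at h3
              rw [← h3, hC, Finset.sum_apply]
              refine Finset.sum_congr rfl fun j _ => ?_
              show μ j * (if h : (k : ℕ) ∈ Q₁ ∧ ((j : ι) : ℕ) ∈ Q₂ then A ⟨k, h.1⟩ ⟨j, h.2⟩
                else 0) = μ j * A ⟨k, _⟩ ⟨j, _⟩
              rw [dif_pos ⟨hkQ, hJQ j⟩]
            · rw [hC, Finset.sum_apply]
              refine Finset.sum_eq_zero fun j _ => ?_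
              show μ j * (if h : (k : ℕ) ∈ Q₁ ∧ ((j : ι) : ℕ) ∈ Q₂ then A ⟨k, h.1⟩ ⟨j, h.2⟩
                else 0) = 0
              rw [dif_neg fun h => hkQ h.1, mul_zero]
          · intro j _
            show -C j * (Pi.single (j : ι) (1 : F) : ι → F) k = 0
            rw [Pi.single_eq_of_ne, mul_zero]
            intro h3
            exact hk (h3 ▸ j.2))
      intro i
      exact h2 (Sum.inr i)
    rw [Matrix.rank_eq_finrank_span_cols]
    have h2 := finrank_span_eq_card hw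
    rw [Fintype.card_coe] at h2
    rw [← h2]
    apply Submodule.finrank_mono
    apply Submodule.span_mono
    rintro _ ⟨i, rfl⟩
    exact ⟨_, rfl⟩)
  let V : Matrix Q₁ Q₂ F := fun k i =>
    if (k : ℕ) = (i : ℕ) then t ⟨i, Finset.mem_union_right _ i.2⟩ else 0
  let M : Matrix ι ι F := fun k i => (c i + t i • b i) k
  have h1 : erk A ≤ (A + V).rank :=
    Nat.sInf_le ⟨V, fun i j hij => if_neg hij, rfl⟩
  have h2 : A + V = M.submatrix (fun k : Q₁ => (⟨k, Finset.mem_union_left _ k.2⟩ : ι))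
      (fun i : Q₂ => (⟨i, Finset.mem_union_right _ i.2⟩ : ι)) := by
    ext k i
    show A k i + V k i = (if h : (k : ℕ) ∈ Q₁ ∧ (i : ℕ) ∈ Q₂ then A ⟨k, h.1⟩ ⟨i, h.2⟩ else 0) +
      t ⟨i, Finset.mem_union_right _ i.2⟩ *
        (Pi.single (⟨i, Finset.mem_union_right _ i.2⟩ : ι) (1 : F) : ι → F)
          ⟨k, Finset.mem_union_left _ k.2⟩
    rw [dif_pos ⟨k.2, i.2⟩]
    congr 1
    show (if (k : ℕ) = (i : ℕ) then t ⟨i, Finset.mem_union_right _ i.2⟩ else 0) = _
    by_cases hki : (k : ℕ) = (i : ℕ)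
    · rw [if_pos hki]
      have h3 : (⟨k, Finset.mem_union_left _ k.2⟩ : ι) = ⟨i, Finset.mem_union_right _ i.2⟩ :=
        Subtype.ext hki
      rw [h3, Pi.single_eq_same, mul_one]
    · rw [if_neg hki, Pi.single_eq_of_ne, mul_zero]
      intro h3
      exact hki (congrArg Subtype.val h3)
  have h3 : (A + V).rank ≤ M.rank := by
    rw [h2]
    exact M.rank_submatrix_le _ _
  have h4 : M.rank = finrank F (Submodule.span F (Set.range fun i => c i + t i • b i)) := by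
    rw [Matrix.rank_eq_finrank_span_cols]
    rfl
  omega

/-- **Answer to Q1 (yes).** For every field and every matrix, the disjoint rank is at least one half
of the essential rank. -/
theorem result (F : Type*) [Field F] (Q₁ Q₂ : Finset ℕ) (A : Matrix Q₁ Q₂ F) :
    (1 / 2 : ℝ) * (erk A : ℝ) ≤ (drk A : ℝ) := by
  have h1 : (erk A : ℝ) ≤ 2 * (drk A : ℝ) := by exact_mod_cast erk_le A
  linarith

end Pool.Agent.Results.MP_852b03_co.DisjointRank
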